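import Pool.Agent.H83.Hsem2

/-! The homotopical semantics validates weak excluded middle for equality, so it is not complete
for intuitionistic first-order logic. -/

namespace Pool.Agent.Results.MP_57cfa6_lc.Incomplete

open CategoryTheory Limits MonoidalCategory CartesianMonoidalCategory
open Pool.Agent.H83.Hsem

/-- A many-sorted algebraic signature. -/
structure Sig where
  Srt : Type
  Fn : List Srt → Srt → Type

/-- Variables of sort `A` in a context (de Bruijn; the head of the list is the last variable). -/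
inductive Var {S : Type} : List S → S → Type
  | zero {Γ : List S} {A : S} : Var (A :: Γ) A
  | succ {Γ : List S} {A B : S} : Var Γ A → Var (B :: Γ) A

/-- Terms in context. -/
inductive Tm (σ : Sig) (Γ : List σ.Srt) : σ.Srt → Type
  | var {A : σ.Srt} : Var Γ A → Tm σ Γ A
  | app {As : List σ.Srt} {B : σ.Srt} : σ.Fn As B → (∀ A, Var As A → Tm σ Γ A) → Tm σ Γ B

/-- Formulas in context. -/
inductive Fm (σ : Sig) : List σ.Srt → Type
  | top {Γ : List σ.Srt} : Fm σ Γ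
  | bot {Γ : List σ.Srt} : Fm σ Γ
  | eq {Γ : List σ.Srt} {A : σ.Srt} : Tm σ Γ A → Tm σ Γ A → Fm σ Γ
  | and {Γ : List σ.Srt} : Fm σ Γ → Fm σ Γ → Fm σ Γ
  | or {Γ : List σ.Srt} : Fm σ Γ → Fm σ Γ → Fm σ Γ
  | imp {Γ : List σ.Srt} : Fm σ Γ → Fm σ Γ → Fm σ Γ
  | all {Γ : List σ.Srt} (A : σ.Srt) : Fm σ (A :: Γ) → Fm σ Γ
  | ex {Γ : List σ.Srt} (A : σ.Srt) : Fm σ (A :: Γ) → Fm σ Γ

variable {σ : Sig}

/-- Substitutions: a term in context `Δ` for each variable of `Γ`. -/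
def Sub (σ : Sig) (Γ Δ : List σ.Srt) : Type := ∀ A, Var Γ A → Tm σ Δ A

def Tm.subst {Γ Δ : List σ.Srt} (s : Sub σ Γ Δ) : ∀ {A : σ.Srt}, Tm σ Γ A → Tm σ Δ A
  | _, .var v => s _ v
  | _, .app f a => .app f (fun A v => (a A v).subst s)

/-- The weakening substitution. -/
def wkS (Γ : List σ.Srt) (B : σ.Srt) : Sub σ Γ (B :: Γ) := fun _ v => .var v.succ

/-- Extend a substitution by a term for the last variable. -/
def Sub.cons {Γ Δ : List σ.Srt} {B : σ.Srt} (s : Sub σ Γ Δ) (t : Tm σ Δ B) : Sub σ (B :: Γ) Δ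
  | _, .zero => t
  | _, .succ v => s _ v

/-- Lift a substitution under a binder. -/
def Sub.lift {Γ Δ : List σ.Srt} (s : Sub σ Γ Δ) (B : σ.Srt) : Sub σ (B :: Γ) (B :: Δ) :=
  Sub.cons (fun A v => (s A v).subst (wkS Δ B)) (.var .zero)

def Fm.subst : ∀ {Γ Δ : List σ.Srt}, Sub σ Γ Δ → Fm σ Γ → Fm σ Δ
  | _, _, _, .top => .top
  | _, _, _, .bot => .bot
  | _, _, s, .eq a b => .eq (a.subst s) (b.subst s)
  | _, _, s, .and a b => .and (a.subst s) (b.subst s)
  | _, _, s, .or a b => .or (a.subst s) (b.subst s)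
  | _, _, s, .imp a b => .imp (a.subst s) (b.subst s)
  | _, _, s, .all A a => .all A (a.subst (s.lift A))
  | _, _, s, .ex A a => .ex A (a.subst (s.lift A))

/-- Weakening of a formula by a fresh variable of sort `B`. -/
def Fm.wk {Γ : List σ.Srt} (B : σ.Srt) (φ : Fm σ Γ) : Fm σ (B :: Γ) := φ.subst (wkS Γ B)

/-- Substitution of `t` for the last variable. -/
def Fm.inst {Γ : List σ.Srt} {B : σ.Srt} (φ : Fm σ (B :: Γ)) (t : Tm σ Γ B) : Fm σ Γ :=
  φ.subst (Sub.cons (fun _ v => .var v) t)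

/-- Intuitionistic natural deduction with equality, in explicit contexts. -/
inductive Prf : (Γ : List σ.Srt) → List (Fm σ Γ) → Fm σ Γ → Prop
  | hyp {Γ H φ} : φ ∈ H → Prf Γ H φ
  | topI {Γ H} : Prf Γ H .top
  | botE {Γ H φ} : Prf Γ H .bot → Prf Γ H φ
  | andI {Γ H φ ψ} : Prf Γ H φ → Prf Γ H ψ → Prf Γ H (.and φ ψ)
  | andE1 {Γ H φ ψ} : Prf Γ H (.and φ ψ) → Prf Γ H φ
  | andE2 {Γ H φ ψ} : Prf Γ H (.and φ ψ) → Prf Γ H ψ
  | orI1 {Γ H φ ψ} : Prf Γ H φ → Prf Γ H (.or φ ψ)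
  | orI2 {Γ H φ ψ} : Prf Γ H ψ → Prf Γ H (.or φ ψ)
  | orE {Γ H φ ψ χ} : Prf Γ H (.or φ ψ) → Prf Γ (φ :: H) χ → Prf Γ (ψ :: H) χ → Prf Γ H χ
  | impI {Γ H φ ψ} : Prf Γ (φ :: H) ψ → Prf Γ H (.imp φ ψ)
  | impE {Γ H φ ψ} : Prf Γ H (.imp φ ψ) → Prf Γ H φ → Prf Γ H ψ
  | allI {Γ H A φ} : Prf (A :: Γ) (H.map (Fm.wk A)) φ → Prf Γ H (.all A φ)
  | allE {Γ H A φ} (t : Tm σ Γ A) : Prf Γ H (.all A φ) → Prf Γ H (φ.inst t)
  | exI {Γ H A φ} (t : Tm σ Γ A) : Prf Γ H (Fm.inst φ t) → Prf Γ H (.ex A φ)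
  | exE {Γ H A φ ψ} : Prf Γ H (.ex A φ) → Prf (A :: Γ) (φ :: H.map (Fm.wk A)) (ψ.wk A) →
      Prf Γ H ψ
  | refl {Γ H A} (t : Tm σ Γ A) : Prf Γ H (.eq t t)
  | eqE {Γ H A} {s t : Tm σ Γ A} (φ : Fm σ (A :: Γ)) :
      Prf Γ H (.eq s t) → Prf Γ H (φ.inst s) → Prf Γ H (φ.inst t)

/-- The product of the simplicial sets attached to the sorts of a context. -/
noncomputable def ctx {S : Type} (O : S → SSet.{0}) : List S → SSet.{0}
  | [] => 𝟙_ SSet
  | A :: Γ => ctx O Γ ⊗ O A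

/-- A structure in Kan complexes. -/
structure Str (σ : Sig) where
  obj : σ.Srt → SSet.{0}
  kan : ∀ A, SSet.KanComplex (obj A)
  fn : ∀ {As : List σ.Srt} {B : σ.Srt}, σ.Fn As B → (ctx obj As ⟶ obj B)

/-- Projection to a variable. -/
noncomputable def varI {S : Type} (O : S → SSet.{0}) :
    ∀ {Γ : List S} {A : S}, Var Γ A → (ctx O Γ ⟶ O A)
  | _, _, .zero => snd _ _
  | _, _, .succ v => fst _ _ ≫ varI O v

/-- The map into a product with given components. -/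
noncomputable def tuple {S : Type} (O : S → SSet.{0}) (Z : SSet.{0}) :
    ∀ As : List S, (∀ A, Var As A → (Z ⟶ O A)) → (Z ⟶ ctx O As)
  | [], _ => toUnit Z
  | A :: As, g => lift (tuple O Z As (fun B v => g B v.succ)) (g A .zero)

/-- Interpretation of terms. -/
noncomputable def tmI (M : Str σ) {Γ : List σ.Srt} :
    ∀ {A : σ.Srt}, Tm σ Γ A → (ctx M.obj Γ ⟶ M.obj A)
  | _, .var v => varI M.obj v
  | _, .app f a => tuple M.obj _ _ (fun A v => tmI M (a A v)) ≫ M.fn f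

open Simplicial in
/-- Evaluation of a path at the endpoint `i`. -/
noncomputable def endpt (X : SSet.{0}) (i : Fin 2) : (ihom Δ[1]).obj X ⟶ X :=
  lift (SSet.const (SSet.stdSimplex.obj₀Equiv.symm i)) (𝟙 _) ≫ (ihom.ev Δ[1]).app X

/-- The path space over `X × X`. -/
noncomputable def pathO (X : SSet.{0}) : Over (X ⊗ X) := Over.mk (lift (endpt X 0) (endpt X 1))

/-- Exponential in the slice: the right adjoint of `P × -`, applied to `Q`. -/
noncomputable def expo {X : SSet.{0}} (P Q : Over X) : Over X :=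
  haveI := prod_isLeftAdjoint P
  (prod.functor.obj P).rightAdjoint.obj Q

/-- The right adjoint of pullback along `f`, applied to `Q`. -/
noncomputable def forallAlong {X Y : SSet.{0}} (f : Y ⟶ X) (Q : Over Y) : Over X :=
  haveI := pullback_isLeftAdjoint f
  (Over.pullback f).rightAdjoint.obj Q

/-- The homotopical interpretation of formulas. -/
noncomputable def interp (M : Str σ) : ∀ {Γ : List σ.Srt}, Fm σ Γ → Over (ctx M.obj Γ)
  | Γ, .top => Over.mk (𝟙 (ctx M.obj Γ))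
  | Γ, .bot => ⊥_ (Over (ctx M.obj Γ))
  | _, .eq (A := A) s t => (Over.pullback (lift (tmI M s) (tmI M t))).obj (pathO (M.obj A))
  | _, .and φ ψ => interp M φ ⨯ interp M ψ
  | _, .or φ ψ => interp M φ ⨿ interp M ψ
  | _, .imp φ ψ => expo (interp M φ) (interp M ψ)
  | Γ, .all A φ => forallAlong (fst (ctx M.obj Γ) (M.obj A)) (interp M φ)
  | Γ, .ex A φ => (Over.map (fst (ctx M.obj Γ) (M.obj A))).obj (interp M φ)

/-- A sentence is valid if its interpretation has a vertex in every structure. -/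
def Valid (φ : Fm σ []) : Prop := ∀ M : Str σ, SSet.Nonempty (interp M φ).left

/-- One sort, no function symbols. -/
def sig0 : Sig := ⟨Unit, fun _ _ => Empty⟩

/-- The formula `x = y` in two variables. -/
def eqxy : Fm sig0 [(), ()] := .eq (.var (.succ .zero)) (.var .zero)

/-- The sentence: for all x, y, not (x = y) or not not (x = y). -/
def wem : Fm sig0 [] :=
  .all () (.all () (.or (.imp eqxy .bot) (.imp (.imp eqxy .bot) .bot)))

/-! ### Validity -/

lemma hom_forall {X Y : SSet.{0}} (f : Y ⟶ X) (Q : Over Y) (h : ∀ T : Over Y, Nonempty (T ⟶ Q))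
    (T : Over X) : Nonempty (T ⟶ forallAlong f Q) := by
  haveI := pullback_isLeftAdjoint f
  obtain ⟨g⟩ := h ((Over.pullback f).obj T)
  exact ⟨(Adjunction.ofIsLeftAdjoint (Over.pullback f)).homEquiv _ _ g⟩

open Simplicial in
lemma supp_eq {Γ X : SSet.{0}} (s t : Γ ⟶ X) (v : Γ _⦋0⦌) :
    supp ((Over.pullback (lift s t)).obj (pathO X)) _ v ↔ Ed X (s.app _ v) (t.app _ v) := by
  rw [← path_iff]
  constructor
  · rintro ⟨z, rfl⟩
    have h := pb_cond (pathO X).hom (lift s t) _ z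
    exact ⟨(pullback.fst (pathO X).hom (lift s t)).app _ z, congrArg Prod.fst h,
      congrArg Prod.snd h⟩
  · rintro ⟨p, h0, h1⟩
    obtain ⟨z, -, hz⟩ := pb_ex (pathO X).hom (lift s t) _ p v (Prod.ext h0 h1)
    exact ⟨z, hz⟩

open Simplicial in
lemma wlem_eq {Γ X : SSet.{0}} [SSet.KanComplex X] (s t : Γ ⟶ X) (T : Over Γ) :
    Nonempty (T ⟶ expo ((Over.pullback (lift s t)).obj (pathO X)) (⊥_ _) ⨿
      expo (expo ((Over.pullback (lift s t)).obj (pathO X)) (⊥_ _)) (⊥_ _)) := by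
  let R : Γ _⦋0⦌ → Prop := fun v => Ed X (s.app _ v) (t.app _ v)
  let U : Subfunctor Γ :=
    { obj n := {x | ∀ θ : n ⟶ Opposite.op ⦋0⦌, ¬ R (Γ.map θ x)}
      map {n m} α x hx θ := by
        have := hx (α ≫ θ)
        simpa using this }
  let V : Subfunctor Γ :=
    { obj n := {x | ∀ θ : n ⟶ Opposite.op ⦋0⦌, R (Γ.map θ x)}
      map {n m} α x hx θ := by
        have := hx (α ≫ θ)
        simpa using this }
  have v0 : ∀ n : SimplexCategoryᵒᵖ, Nonempty (n ⟶ Opposite.op ⦋0⦌) :=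
    fun n => ⟨(SimplexCategory.const ⦋0⦌ n.unop 0).op⟩
  have tr : ∀ (n : SimplexCategoryᵒᵖ) (x : Γ.obj n) (θ θ' : n ⟶ Opposite.op ⦋0⦌),
      R (Γ.map θ x) → R (Γ.map θ' x) := by
    intro n x θ θ' h
    simp only [R, nat] at h ⊢
    exact ((Ed.vert _ θ' θ).trans h).trans (Ed.vert _ θ θ')
  haveI := prod_isLeftAdjoint ((Over.pullback (lift s t)).obj (pathO X))
  haveI := prod_isLeftAdjoint
    ((prod.functor.obj ((Over.pullback (lift s t)).obj (pathO X))).rightAdjoint.obj (⊥_ (Over Γ)))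
  refine wlem ((Over.pullback (lift s t)).obj (pathO X)) U V ?_ ?_ ?_ T
  · intro n x
    constructor
    · intro h h'
      obtain ⟨θ⟩ := v0 n
      exact h' θ (h θ)
    · intro h θ
      by_contra h'
      exact h (fun θ' h'' => h' (tr n x θ' θ h''))
  · intro n x hx h
    obtain ⟨θ⟩ := v0 n
    exact hx θ ((supp_eq s t _).1 (supp_map θ h))
  · intro n x hx
    obtain ⟨θ⟩ := v0 n
    exact ⟨_, θ, (supp_eq s t _).2 (hx θ)⟩

lemma valid_wem : Valid wem := by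
  intro M
  haveI := M.kan ()
  obtain ⟨g⟩ : Nonempty (Over.mk (𝟙 (ctx M.obj [])) ⟶ interp M wem) :=
    hom_forall _ _ (hom_forall _ _ (wlem_eq _ _)) _
  exact ⟨g.left.app _ PUnit.unit⟩

/-! ### A Kripke model -/

/-- Worlds: `none` is the root, `some true` identifies the two points, `some false` does not. -/
def le' (w w' : Option Bool) : Prop := w = none ∨ w = w'

lemma le'_refl (w : Option Bool) : le' w w := Or.inr rfl

lemma le'_trans {a b c : Option Bool} (h : le' a b) (h' : le' b c) : le' a c := by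
  rcases h with h | rfl
  · exact Or.inl h
  · exact h'

def E (w : Option Bool) (a b : Bool) : Prop := a = b ∨ w = some true

lemma E_mono {w w' : Option Bool} (h : le' w w') {a b : Bool} (e : E w a b) : E w' a b := by
  rcases e with e | rfl
  · exact Or.inl e
  · rcases h with h | rfl
    · cases h
    · exact Or.inr rfl

def Env (Γ : List sig0.Srt) : Type := ∀ A, Var Γ A → Bool

def Env.cons {Γ : List sig0.Srt} {B : sig0.Srt} (ρ : Env Γ) (d : Bool) : Env (B :: Γ)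
  | _, .zero => d
  | _, .succ v => ρ _ v

def ev {Γ : List sig0.Srt} (ρ : Env Γ) : ∀ {A : sig0.Srt}, Tm sig0 Γ A → Bool
  | _, .var v => ρ _ v
  | _, .app f _ => Empty.elim f

def Fo : ∀ {Γ : List sig0.Srt}, Fm sig0 Γ → Option Bool → Env Γ → Prop
  | _, .top, _, _ => True
  | _, .bot, _, _ => False
  | _, .eq s t, w, ρ => E w (ev ρ s) (ev ρ t)
  | _, .and a b, w, ρ => Fo a w ρ ∧ Fo b w ρ
  | _, .or a b, w, ρ => Fo a w ρ ∨ Fo b w ρ
  | _, .imp a b, w, ρ => ∀ w', le' w w' → Fo a w' ρ → Fo b w' ρ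
  | _, .all _ a, w, ρ => ∀ d, Fo a w (ρ.cons d)
  | _, .ex _ a, w, ρ => ∃ d, Fo a w (ρ.cons d)

lemma Fo_mono {Γ : List sig0.Srt} (φ : Fm sig0 Γ) {w w' : Option Bool} (h : le' w w')
    (ρ : Env Γ) : Fo φ w ρ → Fo φ w' ρ := by
  induction φ with
  | top => exact id
  | bot => exact id
  | eq s t => exact E_mono h
  | and a b iha ihb => exact fun k => ⟨iha ρ k.1, ihb ρ k.2⟩
  | or a b iha ihb => exact fun k => k.imp (iha ρ) (ihb ρ)
  | imp a b _ _ => exact fun k w'' h' => k w'' (le'_trans h h')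
  | all A a ih => exact fun k d => ih _ (k d)
  | ex A a ih => exact fun ⟨d, k⟩ => ⟨d, ih _ k⟩

lemma ev_subst {Γ Δ : List sig0.Srt} (s : Sub sig0 Γ Δ) (ρ : Env Δ) {A : sig0.Srt}
    (t : Tm sig0 Γ A) : ev ρ (t.subst s) = ev (fun A v => ev ρ (s A v)) t := by
  cases t with
  | var v => rfl
  | app f a => exact Empty.elim f

lemma Fo_subst {Γ : List sig0.Srt} (φ : Fm sig0 Γ) : ∀ {Δ : List sig0.Srt} (s : Sub sig0 Γ Δ)
    (w : Option Bool) (ρ : Env Δ), Fo (φ.subst s) w ρ ↔ Fo φ w (fun A v => ev ρ (s A v)) := by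
  have key : ∀ {Γ Δ : List sig0.Srt} (s : Sub sig0 Γ Δ) (ρ : Env Δ) (B : sig0.Srt) (d : Bool),
      (fun A v => ev (ρ.cons d) (s.lift B A v)) =
        Env.cons (B := B) (fun A v => ev ρ (s A v)) d := by
    intro Γ Δ s ρ B d
    funext A v
    cases v with
    | zero => rfl
    | succ v =>
      change ev (ρ.cons d) ((s A v).subst (wkS Δ B)) = ev ρ (s A v)
      rw [ev_subst]; rfl
  induction φ with
  | top => intros; rfl
  | bot => intros; rfl
  | eq a b => intro Δ s w ρ; simp only [Fm.subst, Fo, ev_subst]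
  | and a b iha ihb => intro Δ s w ρ; simp only [Fm.subst, Fo, iha, ihb]
  | or a b iha ihb => intro Δ s w ρ; simp only [Fm.subst, Fo, iha, ihb]
  | imp a b iha ihb => intro Δ s w ρ; simp only [Fm.subst, Fo, iha, ihb]
  | all A a ih => intro Δ s w ρ; simp only [Fm.subst, Fo, ih, key]
  | ex A a ih => intro Δ s w ρ; simp only [Fm.subst, Fo, ih, key]

lemma Fo_wk {Γ : List sig0.Srt} (φ : Fm sig0 Γ) (B : sig0.Srt) (w : Option Bool) (ρ : Env Γ)
    (d : Bool) : Fo (φ.wk B) w (ρ.cons d) ↔ Fo φ w ρ :=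
  Fo_subst φ _ w _

lemma Fo_inst {Γ : List sig0.Srt} {B : sig0.Srt} (φ : Fm sig0 (B :: Γ)) (t : Tm sig0 Γ B)
    (w : Option Bool) (ρ : Env Γ) : Fo (φ.inst t) w ρ ↔ Fo φ w (ρ.cons (ev ρ t)) := by
  rw [Fm.inst, Fo_subst]
  have : (fun A v => ev ρ (Sub.cons (fun _ v => Tm.var v) t A v)) = ρ.cons (B := B) (ev ρ t) := by
    funext A v
    cases v <;> rfl
  rw [this]

lemma E_symm {w : Option Bool} {a b : Bool} (h : E w a b) : E w b a := h.imp Eq.symm id

lemma E_trans {w : Option Bool} {a b c : Bool} (h : E w a b) (h' : E w b c) : E w a c := by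
  rcases h with rfl | h
  · exact h'
  · exact Or.inr h

lemma Fo_congr {Γ : List sig0.Srt} (φ : Fm sig0 Γ) : ∀ (w : Option Bool) (ρ ρ' : Env Γ),
    (∀ A v, E w (ρ A v) (ρ' A v)) → Fo φ w ρ → Fo φ w ρ' := by
  have hc : ∀ {Γ : List sig0.Srt} {B : sig0.Srt} (w : Option Bool) (ρ ρ' : Env Γ) (d : Bool),
      (∀ A v, E w (ρ A v) (ρ' A v)) →
      ∀ A v, E w (ρ.cons (B := B) d A v) (ρ'.cons (B := B) d A v) := by
    intro Γ B w ρ ρ' d h A v
    cases v with
    | zero => exact Or.inl rfl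
    | succ v => exact h A v
  have he : ∀ {Γ : List sig0.Srt} (w : Option Bool) (ρ ρ' : Env Γ),
      (∀ A v, E w (ρ A v) (ρ' A v)) → ∀ {A} (t : Tm sig0 Γ A), E w (ev ρ t) (ev ρ' t) := by
    intro Γ w ρ ρ' h A t
    cases t with
    | var v => exact h A v
    | app f a => exact Empty.elim f
  induction φ with
  | top => intros; trivial
  | bot => intro _ _ _ _ h; exact h
  | eq s t => intro w ρ ρ' h k; exact E_trans (E_symm (he w ρ ρ' h s)) (E_trans k (he w ρ ρ' h t))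
  | and a b iha ihb => intro w ρ ρ' h k; exact ⟨iha w ρ ρ' h k.1, ihb w ρ ρ' h k.2⟩
  | or a b iha ihb => intro w ρ ρ' h k; exact k.imp (iha w ρ ρ' h) (ihb w ρ ρ' h)
  | imp a b iha ihb =>
    intro w ρ ρ' h k w' hw ha
    exact ihb w' ρ ρ' (fun A v => E_mono hw (h A v))
      (k w' hw (iha w' ρ' ρ (fun A v => E_symm (E_mono hw (h A v))) ha))
  | all A a ih => intro w ρ ρ' h k d; exact ih w _ _ (hc w ρ ρ' d h) (k d)
  | ex A a ih => intro w ρ ρ' h ⟨d, k⟩; exact ⟨d, ih w _ _ (hc w ρ ρ' d h) k⟩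

lemma sound {Γ : List sig0.Srt} {H : List (Fm sig0 Γ)} {φ : Fm sig0 Γ} (h : Prf Γ H φ) :
    ∀ w ρ, (∀ ψ ∈ H, Fo ψ w ρ) → Fo φ w ρ := by
  have hw : ∀ {Γ : List sig0.Srt} (H : List (Fm sig0 Γ)) (A : sig0.Srt) w (ρ : Env Γ) (d : Bool),
      (∀ ψ ∈ H, Fo ψ w ρ) → ∀ ψ ∈ H.map (Fm.wk A), Fo ψ w (ρ.cons d) := by
    intro Γ H A w ρ d h ψ hψ
    obtain ⟨χ, hχ, rfl⟩ := List.mem_map.1 hψ
    exact (Fo_wk χ A w ρ d).2 (h χ hχ)
  induction h with
  | hyp h => exact fun w ρ k => k _ h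
  | topI => intros; trivial
  | botE _ ih => exact fun w ρ k => (ih w ρ k).elim
  | andI _ _ i1 i2 => exact fun w ρ k => ⟨i1 w ρ k, i2 w ρ k⟩
  | andE1 _ ih => exact fun w ρ k => (ih w ρ k).1
  | andE2 _ ih => exact fun w ρ k => (ih w ρ k).2
  | orI1 _ ih => exact fun w ρ k => Or.inl (ih w ρ k)
  | orI2 _ ih => exact fun w ρ k => Or.inr (ih w ρ k)
  | orE _ _ _ i1 i2 i3 =>
    intro w ρ k
    rcases i1 w ρ k with h | h
    · exact i2 w ρ (List.forall_mem_cons.2 ⟨h, k⟩)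
    · exact i3 w ρ (List.forall_mem_cons.2 ⟨h, k⟩)
  | impI _ ih =>
    intro w ρ k w' hw' ha
    exact ih w' ρ (List.forall_mem_cons.2 ⟨ha, fun ψ hψ => Fo_mono ψ hw' ρ (k ψ hψ)⟩)
  | impE _ _ i1 i2 => exact fun w ρ k => i1 w ρ k w (le'_refl w) (i2 w ρ k)
  | allI _ ih => exact fun w ρ k d => ih w _ (hw _ _ w ρ d k)
  | allE t _ ih => exact fun w ρ k => (Fo_inst _ t w ρ).2 (ih w ρ k _)
  | exI t _ ih => exact fun w ρ k => ⟨_, (Fo_inst _ t w ρ).1 (ih w ρ k)⟩
  | exE _ _ i1 i2 =>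
    intro w ρ k
    obtain ⟨d, hd⟩ := i1 w ρ k
    exact (Fo_wk _ _ w ρ d).1 (i2 w _ (List.forall_mem_cons.2 ⟨hd, hw _ _ w ρ d k⟩))
  | refl t => exact fun w ρ _ => Or.inl rfl
  | eqE φ _ _ i1 i2 =>
    intro w ρ k
    rw [Fo_inst]
    refine Fo_congr φ w _ _ ?_ ((Fo_inst _ _ w ρ).1 (i2 w ρ k))
    intro A v
    cases v with
    | zero => exact i1 w ρ k
    | succ v => exact Or.inl rfl

lemma not_prf : ¬ Prf [] [] wem := by
  intro h
  have := sound h none (fun _ v => nomatch v) (by simp) true false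
  rcases this with h | h
  · exact h (some true) (Or.inl rfl) (Or.inr rfl)
  · refine h (some false) (Or.inl rfl) ?_
    intro w' hw' e
    rcases hw' with hw' | rfl
    · cases hw'
    · rcases e with e | e
      · cases e
      · cases e

theorem result : (Valid wem ∧ ¬ Prf [] [] wem) ∧
    ¬ ∀ (σ : Sig) (φ : Fm σ []), Valid φ → Prf [] [] φ :=
  ⟨⟨valid_wem, not_prf⟩, fun h => not_prf (h _ _ valid_wem)⟩

end Pool.Agent.Results.MP_57cfa6_lc.Incomplete
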